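import Mathlib

set_option autoImplicit false

namespace Pool.Agent.Results.MP_118fda_co.AllCases

/-- Edge relation of the generalized Mycielski graph. `some (u, i)` is the vertex `(u, i+1)`
and `none` is `z`. -/
def MRel {V : Type} (G : SimpleGraph V) (r : ℕ) :
    Option (V × Fin r) → Option (V × Fin r) → Prop
  | some (u, i), some (v, j) => G.Adj u v ∧ ((i.val = 0 ∧ j.val = 0) ∨ i.val + 1 = j.val)
  | some (_, i), none => i.val + 1 = r
  | none, _ => False

/-- The generalized Mycielski graph `M_r(G)`. -/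
def Myc {V : Type} (G : SimpleGraph V) (r : ℕ) : SimpleGraph (Option (V × Fin r)) :=
  SimpleGraph.fromRel (MRel G r)

/-- `o a b` means that the edge `ab` is directed from `a` to `b`. -/
def IsOrientation {W : Type} (H : SimpleGraph W) (o : W → W → Prop) : Prop :=
  (∀ a b, o a b → H.Adj a b) ∧ ∀ a b, H.Adj a b → (o a b ↔ ¬ o b a)

/-- `f` lists the vertices of a cycle of length `m`. -/
def IsCyc {W : Type} (H : SimpleGraph W) (m : ℕ) (f : ZMod m → W) : Prop :=
  3 ≤ m ∧ Function.Injective f ∧ ∀ i, H.Adj (f i) (f (i + 1))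

def IsShortestOdd {W : Type} (H : SimpleGraph W) (m : ℕ) (f : ZMod m → W) : Prop :=
  Odd m ∧ IsCyc H m f ∧ ∀ (m' : ℕ) (f' : ZMod m' → W), Odd m' → IsCyc H m' f' → m ≤ m'

/-- Every vertex with at most one exception is a source or a sink in the cycle. -/
def Alternating {W : Type} (o : W → W → Prop) (m : ℕ) (f : ZMod m → W) : Prop :=
  ∃ e : ZMod m, ∀ i, i ≠ e →
    (o (f i) (f (i - 1)) ∧ o (f i) (f (i + 1))) ∨ (o (f (i - 1)) (f i) ∧ o (f (i + 1)) (f i))

lemma mono {m : ℕ} (hm : Odd m) (c : ZMod m → ℕ) (hc : ∀ i, c i < 2) : ∃ i, c i = c (i + 1) := by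
  by_contra h
  push Not at h
  have : ∀ n : ℕ, c (n : ZMod m) = (c 0 + n) % 2 := by
    intro n
    induction n with
    | zero => have := hc 0; simp; omega
    | succ n ih =>
      have h1 := h n
      have h2 := hc (n + 1)
      push_cast
      omega
  have h1 := this m
  rw [ZMod.natCast_self] at h1
  obtain ⟨k, hk⟩ := hm
  omega

theorem general {W : Type} [Fintype W] (H : SimpleGraph W) (g : ℕ) (c : ℕ → W → ℕ)
    (hc : ∀ j a, c j a < 2) (hg : 0 < g)
    (hu : ∀ a b, H.Adj a b → ∀ j < g, ∀ j' < g, c j a = c j b → c j' a = c j' b → j = j') :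
    ∃ o, IsOrientation H o ∧
      ∀ (m : ℕ) (f : ZMod m → W), Odd m → IsCyc H m f → m ≤ g → Alternating o m f := by
  classical
  set ρ := Fintype.equivFin W
  refine ⟨fun a b => H.Adj a b ∧ (if c 0 a = c 0 b then ρ a < ρ b else c 0 a = 0),
    ⟨fun a b h => h.1, fun a b h => ?_⟩, ?_⟩
  · have h1 := hc 0 a
    have h2 := hc 0 b
    have h3 : ρ a ≠ ρ b := ρ.injective.ne h.ne
    by_cases e : c 0 a = c 0 b
    · simp only [h, h.symm, e, if_true, true_and]; omega
    · simp only [h, h.symm, e, Ne.symm e, if_false, true_and]; omega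
  intro m f hm ⟨h3, hi, ha⟩ hmg
  have : NeZero m := ⟨by omega⟩
  have : Fact (1 < m) := ⟨by omega⟩
  choose pos hpos using fun j : Fin g => mono hm (fun i => c j (f i)) (fun i => hc _ _)
  have inj : Function.Injective pos := by
    intro j j' e
    exact Fin.ext (hu _ _ (ha (pos j)) j j.2 j' j'.2 (hpos j) (by rw [e]; exact hpos j'))
  have bij : Function.Bijective pos := by
    refine (Fintype.bijective_iff_injective_and_card pos).2 ⟨inj, ?_⟩
    have := Fintype.card_le_of_injective pos inj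
    simp only [Fintype.card_fin, ZMod.card] at this ⊢
    omega
  set e := pos ⟨0, hg⟩ with he
  have uniq : ∀ i, i ≠ e → c 0 (f i) ≠ c 0 (f (i + 1)) := by
    intro i hie h
    obtain ⟨j, rfl⟩ := bij.2 i
    exact hie (by rw [he]; congr 1; exact Fin.ext (hu _ _ (ha _) j j.2 0 hg (hpos j) h))
  have em : c 0 (f e) = c 0 (f (e + 1)) := hpos ⟨0, hg⟩
  have hne : ρ (f e) ≠ ρ (f (e + 1)) := ρ.injective.ne (ha e).ne
  have ha' : ∀ i, H.Adj (f i) (f (i - 1)) := fun i => by
    have := (ha (i - 1)).symm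
    rwa [sub_add_cancel] at this
  have uniq' : ∀ i, i ≠ e + 1 → c 0 (f i) ≠ c 0 (f (i - 1)) := fun i hi h => by
    have := uniq (i - 1) (fun h => hi (by rw [← h, sub_add_cancel]))
    rw [sub_add_cancel] at this
    exact this h.symm
  have e1 : e ≠ e + 1 := by simp
  refine ⟨if (ρ (f e) < ρ (f (e + 1)) ↔ c 0 (f e) = 0) then e + 1 else e, fun i hie => ?_⟩
  have k1 := hc 0 (f i)
  have k2 := hc 0 (f (i + 1))
  have k3 := hc 0 (f (i - 1))
  simp only [ha i, (ha i).symm, ha' i, (ha' i).symm, true_and]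
  by_cases h1 : i = e
  · subst h1
    have u := uniq' _ e1
    simp only [em, if_true] at *
    split_ifs at hie ⊢ <;> first | omega | exact absurd rfl hie
  by_cases h2 : i = e + 1
  · subst h2
    have u := uniq _ h1
    rw [add_sub_cancel_right] at *
    simp only [← em, if_true] at *
    split_ifs at hie ⊢ <;> first | omega | exact absurd rfl hie
  have u := uniq _ h1
  have u' := uniq' _ h2
  split_ifs <;> omega

/-- rotated position -/
def rot (t j u : ℕ) : ℕ := if j ≤ u then u - j else u + (2 * t + 1) - j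

def col0 (t x i : ℕ) : ℕ :=
  if (x + i) % 2 = 0 then (if t < x + i then (x + 1) % 2 else x % 2)
  else (if t + i < x + 1 then (x + 1) % 2 else x % 2)

def fold (t u : ℕ) : ℕ := if u ≤ 2 * t then u else if u % 2 = 0 then 2 * t else 2 * t - 1

def lev (t r i : ℕ) : ℕ := if i + 1 + t ≤ r + 1 then 1 else i + 1 + t - r

def col (t r k j : ℕ) : Option (Fin (2 * k + 1) × Fin r) → ℕ
  | none => t % 2
  | some (u, i) => col0 t (rot t j (fold t u)) (lev t r i)

def Nb (t u v : ℕ) : Prop := u ≤ 2 * t ∧ v ≤ 2 * t ∧ (v = u + 1 ∨ (u = 2 * t ∧ v = 0))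

lemma rot_nb {t j u v : ℕ} (hj : j < 2 * t + 1) (h : Nb t u v) : Nb t (rot t j u) (rot t j v) := by
  unfold Nb rot at *
  split_ifs <;> omega

lemma rot_inj {t j j' u : ℕ} (hj : j < 2 * t + 1) (hj' : j' < 2 * t + 1) (_hu : u ≤ 2 * t)
    (h : rot t j u = rot t j' u) : j = j' := by
  unfold rot at *
  split_ifs at h <;> omega

lemma col0_ev {t x i : ℕ} (h : (x + i) % 2 = 0) :
    (t < x + i ∧ col0 t x i = (x + 1) % 2) ∨ (x + i ≤ t ∧ col0 t x i = x % 2) := by
  unfold col0; rw [if_pos h]; split_ifs <;> omega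

lemma col0_od {t x i : ℕ} (h : (x + i) % 2 = 1) :
    (t + i < x + 1 ∧ col0 t x i = (x + 1) % 2) ∨ (x + 1 ≤ t + i ∧ col0 t x i = x % 2) := by
  unfold col0; rw [if_neg (by omega)]; split_ifs <;> omega

lemma key0 {t x a b : ℕ} (hab : (a = 1 ∧ b = 1) ∨ a + 1 = b ∨ b + 1 = a)
    (e : col0 t x a = col0 t (x + 1) b) :
    x + (if a + 1 = b then a else 0) ≤ t + (if b + 1 = a then b else 0) ∧
      t + (if b + 1 = a then b else 0) ≤ x + (if a + 1 = b then a else 0) + 1 ∧
      (x + (if a = b then 0 else a)) % 2 = if b + 1 = a then 1 else 0 := by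
  rcases hab with ⟨rfl, rfl⟩ | rfl | rfl
  · simp only [show ¬ (1 + 1 = 1) by omega, if_false, if_true]
    rcases Nat.mod_two_eq_zero_or_one (x + 1) with p | p
    · have h1 := col0_ev (t := t) p
      have h2 := col0_od (t := t) (x := x + 1) (i := 1) (by omega)
      omega
    · have h1 := col0_od (t := t) p
      have h2 := col0_ev (t := t) (x := x + 1) (i := 1) (by omega)
      omega
  · simp only [show ¬ (a + 1 + 1 = a) by omega, show ¬ (a = a + 1) by omega, if_false, if_true]
    rcases Nat.mod_two_eq_zero_or_one (x + a) with p | p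
    · have h1 := col0_ev (t := t) p
      have h2 := col0_ev (t := t) (x := x + 1) (i := a + 1) (by omega)
      omega
    · have h1 := col0_od (t := t) p
      have h2 := col0_od (t := t) (x := x + 1) (i := a + 1) (by omega)
      omega
  · simp only [show ¬ (b + 1 + 1 = b) by omega, show ¬ (b + 1 = b) by omega, if_false, if_true]
    rcases Nat.mod_two_eq_zero_or_one (x + (b + 1)) with p | p
    · have h1 := col0_ev (t := t) p
      have h2 := col0_ev (t := t) (x := x + 1) (i := b) (by omega)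
      omega
    · have h1 := col0_od (t := t) p
      have h2 := col0_od (t := t) (x := x + 1) (i := b) (by omega)
      omega

lemma keyw {t a b : ℕ} (ha : 1 ≤ a) (hb' : b ≤ t) (hb : 1 ≤ b) (ha' : a ≤ t) :
    col0 t (2 * t) a ≠ col0 t 0 b := by
  intro e
  rcases Nat.mod_two_eq_zero_or_one (2 * t + a) with p | p <;>
    rcases Nat.mod_two_eq_zero_or_one (0 + b) with q | q
  · have h1 := col0_ev (t := t) p
    have h2 := col0_ev (t := t) q
    omega
  · have h1 := col0_ev (t := t) p
    have h2 := col0_od (t := t) q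
    omega
  · have h1 := col0_od (t := t) p
    have h2 := col0_ev (t := t) q
    omega
  · have h1 := col0_od (t := t) p
    have h2 := col0_od (t := t) q
    omega

lemma key1 {t x y x' y' a b : ℕ} (h : Nb t x y) (h' : Nb t x' y') (ha : 1 ≤ a) (hb : 1 ≤ b)
    (ha' : a ≤ t) (hb' : b ≤ t) (hab : (a = 1 ∧ b = 1) ∨ a + 1 = b ∨ b + 1 = a)
    (e : col0 t x a = col0 t y b) (e' : col0 t x' a = col0 t y' b) : x = x' := by
  obtain ⟨-, -, rfl | ⟨rfl, rfl⟩⟩ := h
  swap
  · exact absurd e (keyw ha hb' hb ha')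
  obtain ⟨-, -, rfl | ⟨rfl, rfl⟩⟩ := h'
  swap
  · exact absurd e' (keyw ha hb' hb ha')
  have k1 := key0 hab e
  have k2 := key0 hab e'
  generalize (if a + 1 = b then a else 0) = A at *
  generalize (if b + 1 = a then b else 0) = B at *
  generalize (if a = b then 0 else a) = C at *
  generalize (if b + 1 = a then 1 else 0) = E at *
  omega

lemma key2 {t x : ℕ} (h : x ≤ 2 * t) (e : col0 t x t = t % 2) :
    x = if t % 2 = 0 then 0 else 2 * t := by
  rcases Nat.mod_two_eq_zero_or_one (x + t) with p | p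
  · have h1 := col0_ev (t := t) p
    split_ifs <;> omega
  · have h1 := col0_od (t := t) p
    split_ifs <;> omega

lemma pair {t u v a b j j' : ℕ} (h : Nb t u v ∨ Nb t v u) (ha : 1 ≤ a) (hb : 1 ≤ b) (ha' : a ≤ t)
    (hb' : b ≤ t) (hab : (a = 1 ∧ b = 1) ∨ a + 1 = b ∨ b + 1 = a) (hj : j < 2 * t + 1)
    (hj' : j' < 2 * t + 1) (e : col0 t (rot t j u) a = col0 t (rot t j v) b)
    (e' : col0 t (rot t j' u) a = col0 t (rot t j' v) b) : j = j' := by
  rcases h with h | h
  · exact rot_inj hj hj' h.1 (key1 (rot_nb hj h) (rot_nb hj' h) ha hb ha' hb' hab e e')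
  · exact rot_inj hj hj' h.1
      (key1 (rot_nb hj h) (rot_nb hj' h) hb ha hb' ha' (by omega) e.symm e'.symm)

lemma cyc_adj {k : ℕ} (u v : Fin (2 * k + 1)) :
    (SimpleGraph.cycleGraph (2 * k + 1)).Adj u v ↔ 0 < k ∧ (Nb k u v ∨ Nb k v u) := by
  rw [SimpleGraph.cycleGraph_adj']
  have hu := u.2
  have hv := v.2
  simp only [Fin.sub_def, Nb]
  have e : ∀ a b : ℕ, a < 2 * k + 1 → b < 2 * k + 1 →
      (2 * k + 1 - b + a) % (2 * k + 1) = if b ≤ a then a - b else 2 * k + 1 - b + a := by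
    intro a b ha hb
    split_ifs with h
    · rw [show 2 * k + 1 - b + a = a - b + (2 * k + 1) by omega, Nat.add_mod_right,
        Nat.mod_eq_of_lt (by omega)]
    · exact Nat.mod_eq_of_lt (by omega)
  rw [e _ _ hu hv, e _ _ hv hu]
  split_ifs <;> omega

lemma fold_nb {t k u v : ℕ} (ht : 1 ≤ t) (htk : t ≤ k) (h : Nb k u v ∨ Nb k v u) :
    Nb t (fold t u) (fold t v) ∨ Nb t (fold t v) (fold t u) := by
  unfold Nb fold at *
  split_ifs <;> omega

lemma uniq_rel {t r k : ℕ} (ht : 1 ≤ t) (htk : t ≤ k) (htr : t ≤ r)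
    (a b : Option (Fin (2 * k + 1) × Fin r))
    (h : MRel (SimpleGraph.cycleGraph (2 * k + 1)) r a b) (j : ℕ) (hj : j < 2 * t + 1) (j' : ℕ)
    (hj' : j' < 2 * t + 1) (e : col t r k j a = col t r k j b)
    (e' : col t r k j' a = col t r k j' b) : j = j' := by
  rcases a with _ | ⟨u, i⟩
  · exact h.elim
  rcases b with _ | ⟨v, l⟩
  · have hl : lev t r i = t := by
      have : i.val + 1 = r := h
      unfold lev; split_ifs <;> omega
    simp only [col, hl] at e e'
    have hf : fold t u ≤ 2 * t := by unfold fold; split_ifs <;> omega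
    have b : ∀ j, j < 2 * t + 1 → rot t j (fold t u) ≤ 2 * t := by
      intro j hj; unfold rot; split_ifs <;> omega
    exact rot_inj hj hj' hf ((key2 (b j hj) e).trans (key2 (b j' hj') e').symm)
  · obtain ⟨h1, h2⟩ := h
    have hi := i.2
    have hl := l.2
    refine pair (fold_nb ht htk ((cyc_adj u v).1 h1).2) (a := lev t r i) (b := lev t r l)
      ?_ ?_ ?_ ?_ ?_ hj hj' e e' <;> unfold lev <;> split_ifs <;> omega

lemma val_succ {n : ℕ} (hn : 1 ≤ n) (i : ZMod (2 * n + 1)) :
    (i + 1).val = if i.val = 2 * n then 0 else i.val + 1 := by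
  have : Fact (1 < 2 * n + 1) := ⟨by omega⟩
  have := ZMod.val_lt i
  rw [ZMod.val_add, ZMod.val_one]
  split_ifs with h
  · rw [h, Nat.mod_self]
  · exact Nat.mod_eq_of_lt (by omega)

lemma cyc1 {r k : ℕ} (hr : 1 ≤ r) (hk : 1 ≤ k) :
    ∃ f, IsCyc (Myc (SimpleGraph.cycleGraph (2 * k + 1)) r) (2 * k + 1) f := by
  refine ⟨fun i => some (⟨i.val, ZMod.val_lt i⟩, ⟨0, hr⟩), by omega, fun i j h => ?_, fun i => ?_⟩
  · simp only [Option.some.injEq, Prod.mk.injEq, Fin.mk.injEq, and_true] at h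
    exact ZMod.val_injective _ h
  · have h1 := val_succ hk i
    have h2 := ZMod.val_lt i
    rw [Myc, SimpleGraph.fromRel_adj]
    refine ⟨?_, Or.inl ⟨(cyc_adj _ _).2 ⟨hk, Or.inl ?_⟩, Or.inl ⟨rfl, rfl⟩⟩⟩
    · simp only [ne_eq, Option.some.injEq, Prod.mk.injEq, Fin.mk.injEq, and_true]
      split_ifs at h1 <;> omega
    · simp only [Nb]
      split_ifs at h1 <;> omega

lemma cyc2 {r k : ℕ} (hr : 1 ≤ r) (hk : 1 ≤ k) :
    ∃ f, IsCyc (Myc (SimpleGraph.cycleGraph (2 * k + 1)) r) (2 * r + 1) f := by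
  refine ⟨fun i => if h : i.val = 0 then none else some (⟨i.val % 2, by omega⟩,
    ⟨if i.val ≤ r then r - i.val else i.val - r - 1,
      by have := ZMod.val_lt i; split_ifs <;> omega⟩), by omega, fun i j h => ?_, fun i => ?_⟩
  · apply ZMod.val_injective
    have := ZMod.val_lt i
    have := ZMod.val_lt j
    by_cases h1 : i.val = 0 <;> by_cases h2 : j.val = 0 <;>
      simp only [h1, h2, dite_true, dite_false, Option.some.injEq, Prod.mk.injEq, Fin.mk.injEq,
        reduceCtorEq] at h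
    · omega
    · split_ifs at h <;> omega
  · have h1 := val_succ hr i
    have h2 := ZMod.val_lt i
    rw [Myc, SimpleGraph.fromRel_adj]
    by_cases a : i.val = 0 <;> by_cases b : (i + 1).val = 0 <;>
      simp only [a, b, dite_true, dite_false, ne_eq, Option.some.injEq, Prod.mk.injEq,
        Fin.mk.injEq, reduceCtorEq, MRel, cyc_adj, Nb, not_false_eq_true, true_and, false_or,
        or_false] <;> split_ifs at h1 ⊢ <;> omega

theorem result (r k : ℕ) (hr : 1 ≤ r) (hk : 1 ≤ k) :
    ∃ o, IsOrientation (Myc (SimpleGraph.cycleGraph (2 * k + 1)) r) o ∧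
      ∀ (m : ℕ) (f : ZMod m → Option (Fin (2 * k + 1) × Fin r)),
        IsShortestOdd (Myc (SimpleGraph.cycleGraph (2 * k + 1)) r) m f → Alternating o m f := by
  obtain ⟨o, h1, h2⟩ := general (Myc (SimpleGraph.cycleGraph (2 * k + 1)) r) (2 * min r k + 1)
    (col (min r k) r k)
    (fun j a => by
      rcases a with _ | ⟨u, i⟩
      · simp only [col]; omega
      · simp only [col, col0]; split_ifs <;> omega) (by omega)
    (fun a b h j hj j' hj' e e' => by
      rcases ((SimpleGraph.fromRel_adj _ _ _).1 h).2 with h | h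
      · exact uniq_rel (by omega) (by omega) (by omega) a b h j hj j' hj' e e'
      · exact uniq_rel (by omega) (by omega) (by omega) b a h j hj j' hj' e.symm e'.symm)
  refine ⟨o, h1, fun m f ⟨a, b, c⟩ => h2 m f a b ?_⟩
  obtain ⟨f1, g1⟩ := cyc1 hr hk
  obtain ⟨f2, g2⟩ := cyc2 hr hk
  have := c _ f1 ⟨k, rfl⟩ g1
  have := c _ f2 ⟨r, rfl⟩ g2
  omega

end Pool.Agent.Results.MP_118fda_co.AllCases
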